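import Pool.Agent.Y773.NV.St1
import Pool.Agent.Y773.IQ.Fam

/-!
# Job NV773 ORT: orthogonality of the primitive ray class characters of conductor `𝔣`
-/

set_option autoImplicit false
set_option linter.unusedSectionVars false

open NumberField

namespace Pool.Agent.Y960.NV

open Pool.Agent.Y773 (TPos)
open Pool.Agent.Y773.G (IsPrimChar)
open Pool.Agent.Y773.NV (nm dvs mem_dvs PC Rel WW St_ORT)
open Pool.Agent.Y773.IQ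
open Pool.Agent.Y767 (Mq Mq_cop Mq_ne_bot Mq_cancel Cls cls cls_eq cls_pi)

theorem sep_pts (G : Type) [CommGroup G] [Finite G] {a b : G}
    (h : ∀ φ : G →* ℂˣ, φ a = φ b) : a = b := by
  by_contra hne
  obtain ⟨φ, hφ⟩ := CommGroup.exists_apply_ne_one_of_hasEnoughRootsOfUnity G ℂ (a := a * b⁻¹)
    (fun h1 => hne (mul_inv_eq_one.1 h1))
  apply hφ
  rw [map_mul, map_inv, h φ, mul_inv_cancel]

section orth

variable {M : Type} [CommMonoid M]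

lemma nrm_one (H : Subgroup (M →* ℂˣ)) [Finite H] (F : H) (u : M) :
    ‖(((F : M →* ℂˣ) u : ℂˣ) : ℂ)‖ = 1 := by
  obtain ⟨n, hn, h⟩ := (isOfFinOrder_of_finite F).exists_pow_eq_one
  have h1 : ((F : M →* ℂˣ)) ^ n = 1 := by
    have := congrArg Subtype.val h
    rwa [Subgroup.coe_pow, Subgroup.coe_one] at this
  have h2 : ((F : M →* ℂˣ) u) ^ n = 1 := by
    have := DFunLike.congr_fun h1 u
    rwa [MonoidHom.pow_apply, MonoidHom.one_apply] at this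
  have h3 : (((F : M →* ℂˣ) u : ℂˣ) : ℂ) ^ n = 1 := by
    rw [← Units.val_pow_eq_pow_val, h2, Units.val_one]
  exact Complex.norm_eq_one_of_pow_eq_one h3 hn.ne'

/-- orthogonality for a finite group of characters of a monoid -/
lemma orth_zero (H : Subgroup (M →* ℂˣ)) [Finite H] [Fintype H] (u v : M) (F0 : H)
    (h0 : (F0 : M →* ℂˣ) u ≠ (F0 : M →* ℂˣ) v) :
    ∑ F : H, (((F : M →* ℂˣ) u : ℂˣ) : ℂ) * (starRingEnd ℂ) (((F : M →* ℂˣ) v : ℂˣ) : ℂ) = 0 := by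
  obtain ⟨S, hS⟩ : ∃ S, S = ∑ F : H, (((F : M →* ℂˣ) u : ℂˣ) : ℂ) *
    (starRingEnd ℂ) (((F : M →* ℂˣ) v : ℂˣ) : ℂ) := ⟨_, rfl⟩
  obtain ⟨c, hc⟩ : ∃ c : ℂ, c = (((F0 : M →* ℂˣ) u : ℂˣ) : ℂ) *
    (starRingEnd ℂ) (((F0 : M →* ℂˣ) v : ℂˣ) : ℂ) := ⟨_, rfl⟩
  rw [← hS]
  have h1 : c * S = S := by
    rw [hS, Finset.mul_sum]
    rw [← Equiv.sum_comp (Equiv.mulLeft F0) (fun F : H => (((F : M →* ℂˣ) u : ℂˣ) : ℂ) *
      (starRingEnd ℂ) (((F : M →* ℂˣ) v : ℂˣ) : ℂ))]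
    refine Finset.sum_congr rfl fun F _ => ?_
    rw [Equiv.coe_mulLeft, Subgroup.coe_mul, MonoidHom.mul_apply, MonoidHom.mul_apply,
      Units.val_mul, Units.val_mul, map_mul, hc]
    ring
  have h2 : (c - 1) * S = 0 := by rw [sub_mul, h1, one_mul, sub_self]
  rcases mul_eq_zero.mp h2 with h3 | h3
  · exfalso
    apply h0
    apply Units.ext
    have h4 : (starRingEnd ℂ) (((F0 : M →* ℂˣ) v : ℂˣ) : ℂ) =
        ((((F0 : M →* ℂˣ) v : ℂˣ) : ℂ))⁻¹ := (Complex.inv_eq_conj (nrm_one H F0 v)).symm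
    rw [hc, h4, sub_eq_zero, mul_inv_eq_one₀ (Units.ne_zero _)] at h3
    exact h3
  · exact h3

lemma orth_le (H : Subgroup (M →* ℂˣ)) [Finite H] [Fintype H] (u v : M) :
    ‖∑ F : H, (((F : M →* ℂˣ) u : ℂˣ) : ℂ) * (starRingEnd ℂ) (((F : M →* ℂˣ) v : ℂˣ) : ℂ)‖ ≤
      Nat.card H := by
  refine (norm_sum_le _ _).trans (le_of_eq ?_)
  have : ∀ F : H, ‖(((F : M →* ℂˣ) u : ℂˣ) : ℂ) *
      (starRingEnd ℂ) (((F : M →* ℂˣ) v : ℂˣ) : ℂ)‖ = 1 := by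
    intro F
    rw [norm_mul, RCLike.norm_conj, nrm_one, nrm_one, one_mul]
  rw [Finset.sum_congr rfl fun F _ => this F, Finset.sum_const, Finset.card_univ, nsmul_eq_mul,
    mul_one, Nat.card_eq_fintype_card]

end orth

section

variable {K : Type} [Field K] [NumberField K]

/-- the characters modulo `𝔣` which are trivial on the integers congruent to one modulo `𝔢` -/
def DE {𝔣 : Ideal (𝓞 K)} (htop : 𝔣 ≠ ⊤) (𝔢 : Ideal (𝓞 K)) : Subgroup (Mq 𝔣 →* ℂˣ) where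
  carrier := {F | (∀ x : T1 htop, F (pi1 htop x) = 1) ∧
    ∀ (x : 𝓞 K) (hx : IsCoprime (Ideal.span {x}) 𝔣), x - 1 ∈ 𝔢 → F ⟨Ideal.span {x}, hx⟩ = 1}
  mul_mem' {F G} hF hG := ⟨fun x => by rw [MonoidHom.mul_apply, hF.1, hG.1, mul_one],
    fun x hx h => by rw [MonoidHom.mul_apply, hF.2 x hx h, hG.2 x hx h, mul_one]⟩
  one_mem' := ⟨fun x => rfl, fun x hx h => rfl⟩
  inv_mem' {F} hF := ⟨fun x => by rw [MonoidHom.inv_apply, hF.1, inv_one],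
    fun x hx h => by rw [MonoidHom.inv_apply, hF.2 x hx h, inv_one]⟩

lemma DE_sub {𝔣 : Ideal (𝓞 K)} (htop : 𝔣 ≠ ⊤) (𝔢 : Ideal (𝓞 K)) :
    ((DE htop 𝔢 : Subgroup (Mq 𝔣 →* ℂˣ)) : Set (Mq 𝔣 →* ℂˣ)) ⊆ D1 htop := fun _ hF => hF.1

lemma DE_finite {𝔣 : Ideal (𝓞 K)} (hbot : 𝔣 ≠ ⊥) (htop : 𝔣 ≠ ⊤) (𝔢 : Ideal (𝓞 K)) :
    Finite (DE htop 𝔢) := ((D1_card hbot htop).1.subset (DE_sub htop 𝔢)).to_subtype

lemma DE_mono {𝔣 𝔢 𝔢' : Ideal (𝓞 K)} (htop : 𝔣 ≠ ⊤) (h : 𝔢 ≤ 𝔢') {F : Mq 𝔣 →* ℂˣ}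
    (hF : F ∈ DE htop 𝔢') : F ∈ DE htop 𝔢 := ⟨hF.1, fun x hx h1 => hF.2 x hx (h h1)⟩

lemma DE_congr {𝔣 𝔢 : Ideal (𝓞 K)} (htop : 𝔣 ≠ ⊤) (hfe : 𝔣 ≤ 𝔢) {F : Mq 𝔣 →* ℂˣ}
    (hF : F ∈ DE htop 𝔢) {x y : 𝓞 K} (hx : IsCoprime (Ideal.span {x}) 𝔣)
    (hy : IsCoprime (Ideal.span {y}) 𝔣) (hxy : x - y ∈ 𝔢) :
    F ⟨Ideal.span {x}, hx⟩ = F ⟨Ideal.span {y}, hy⟩ := by
  obtain ⟨w, hw⟩ := exists_inv hx
  have hw1 : IsCoprime (Ideal.span {w}) 𝔣 := by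
    have := cop_one hw
    rw [← Ideal.span_singleton_mul_span_singleton] at this
    exact (IsCoprime.mul_left_iff.mp this).1
  have hwx : F ⟨Ideal.span {w * x}, cop_mul hw1 hx⟩ = 1 := hF.2 _ _ (hfe hw)
  have hwy : F ⟨Ideal.span {w * y}, cop_mul hw1 hy⟩ = 1 := hF.2 _ _ (by
    have : w * y - 1 = (w * x - 1) - w * (x - y) := by ring
    rw [this]; exact sub_mem (hfe hw) (Ideal.mul_mem_left _ _ hxy))
  have e1 : (⟨Ideal.span {w * x}, cop_mul hw1 hx⟩ : Mq 𝔣) =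
      ⟨Ideal.span {w}, hw1⟩ * ⟨Ideal.span {x}, hx⟩ :=
    Subtype.ext (Ideal.span_singleton_mul_span_singleton w x).symm
  have e2 : (⟨Ideal.span {w * y}, cop_mul hw1 hy⟩ : Mq 𝔣) =
      ⟨Ideal.span {w}, hw1⟩ * ⟨Ideal.span {y}, hy⟩ :=
    Subtype.ext (Ideal.span_singleton_mul_span_singleton w y).symm
  rw [e1, map_mul] at hwx
  rw [e2, map_mul] at hwy
  exact mul_left_cancel (hwx.trans hwy.symm)

lemma DE_sup {𝔣 𝔢 𝔢' : Ideal (𝓞 K)} (hbot : 𝔣 ≠ ⊥) (htop : 𝔣 ≠ ⊤) (h : 𝔣 ≤ 𝔢) (h' : 𝔣 ≤ 𝔢')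
    {F : Mq 𝔣 →* ℂˣ} (hF : F ∈ DE htop 𝔢) (hF' : F ∈ DE htop 𝔢') : F ∈ DE htop (𝔢 ⊔ 𝔢') := by
  refine ⟨hF.1, fun x hx hx1 => ?_⟩
  obtain ⟨a, ha, b, hb, hab⟩ := Submodule.mem_sup.mp hx1
  have hz1 : IsCoprime (Ideal.span {x - a}) 𝔢 := cop_congr (y := x) (by
    have : x - a - x = -a := by ring
    rw [this]; exact neg_mem ha) (cop_mono h hx)
  have hz2 : IsCoprime (Ideal.span {x - a}) 𝔢' := cop_one (by
    have : x - a - 1 = b := by linear_combination -hab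
    rw [this]; exact hb)
  have hz3 : IsCoprime (Ideal.span {x - a}) (𝔢 ⊓ 𝔢') :=
    cop_mono Ideal.mul_le_inf (IsCoprime.mul_right hz1 hz2)
  obtain ⟨z', hz4, hz5⟩ := exists_cop_lift (le_inf h h') hbot hz3
  have e1 : F ⟨Ideal.span {x}, hx⟩ = F ⟨Ideal.span {z'}, hz4⟩ := DE_congr htop h hF hx hz4 (by
    have : x - z' = a - (z' - (x - a)) := by ring
    rw [this]; exact sub_mem ha (inf_le_left (b := 𝔢') hz5))
  rw [e1]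
  refine hF'.2 z' hz4 ?_
  have : z' - 1 = (z' - (x - a)) + b := by linear_combination -hab
  rw [this]; exact add_mem (inf_le_right (a := 𝔢) hz5) hb

lemma prime_coprime {𝔭 𝔯 : Ideal (𝓞 K)} (h : Prime 𝔭) (h' : Prime 𝔯) (hne : 𝔭 ≠ 𝔯) :
    IsCoprime 𝔭 𝔯 := by
  have h1 : 𝔭.IsMaximal := (Ideal.isPrime_of_prime h).isMaximal h.ne_zero
  have h2 : 𝔯.IsMaximal := (Ideal.isPrime_of_prime h').isMaximal h'.ne_zero
  rw [Ideal.isCoprime_iff_sup_eq]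
  exact h1.coprime_of_ne h2 hne

/-- the intersection of the groups `D(𝔣 / 𝔭)` -/
lemma DE_inter {𝔣 : Ideal (𝓞 K)} (hbot : 𝔣 ≠ ⊥) (htop : 𝔣 ≠ ⊤) {F : Mq 𝔣 →* ℂˣ}
    (hF : F ∈ D1 htop) (T : Finset (Ideal (𝓞 K))) (hT : ∀ 𝔭 ∈ T, Prime 𝔭) :
    ∀ 𝔤 : Ideal (𝓞 K), (∏ 𝔭 ∈ T, 𝔭) * 𝔤 = 𝔣 →
      (F ∈ DE htop 𝔤 ↔ ∀ 𝔭 ∈ T, ∀ 𝔤' : Ideal (𝓞 K), 𝔭 * 𝔤' = 𝔣 → F ∈ DE htop 𝔤') := by
  classical
  induction T using Finset.induction_on with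
  | empty =>
    intro 𝔤 hg
    rw [Finset.prod_empty, one_mul] at hg
    subst hg
    refine ⟨fun _ 𝔭 h => absurd h (Finset.notMem_empty _), fun _ => ⟨hF, fun x hx h1 => ?_⟩⟩
    exact hF ⟨x, h1⟩
  | insert 𝔮 T hq ih =>
    intro 𝔤 hg
    have hT' : ∀ 𝔭 ∈ T, Prime 𝔭 := fun 𝔭 h => hT 𝔭 (Finset.mem_insert_of_mem h)
    have hq' : Prime 𝔮 := hT 𝔮 (Finset.mem_insert_self _ _)
    constructor
    · intro h 𝔭 hp 𝔤' hg'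
      have hp' := hT 𝔭 hp
      rw [← Finset.mul_prod_erase _ _ hp, mul_assoc, ← hg'] at hg
      have h2 := mul_left_cancel₀ hp'.ne_zero hg
      refine DE_mono htop ?_ h
      rw [← h2]
      exact Ideal.mul_le_right
    · intro h
      rw [Finset.prod_insert hq] at hg
      have h1 : (∏ 𝔭 ∈ T, 𝔭) * (𝔮 * 𝔤) = 𝔣 := by rw [← hg]; ring
      have h2 : 𝔮 * ((∏ 𝔭 ∈ T, 𝔭) * 𝔤) = 𝔣 := by rw [← hg]; ring
      have h3 := (ih hT' _ h1).mpr (fun 𝔭 hp => h 𝔭 (Finset.mem_insert_of_mem hp))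
      have h4 := h 𝔮 (Finset.mem_insert_self _ _) _ h2
      have h5 := DE_sup hbot htop (by rw [← h1]; exact Ideal.mul_le_right)
        (by rw [← h2]; exact Ideal.mul_le_right) h3 h4
      have h6 : 𝔮 * 𝔤 ⊔ (∏ 𝔭 ∈ T, 𝔭) * 𝔤 = 𝔤 := by
        rw [← Ideal.sup_mul]
        have h7 : IsCoprime 𝔮 (∏ 𝔭 ∈ T, 𝔭) := by
          apply IsCoprime.prod_right
          intro 𝔭 hp
          exact prime_coprime hq' (hT' 𝔭 hp) (fun h => hq (h ▸ hp))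
        rw [Ideal.isCoprime_iff_sup_eq.mp h7, Ideal.top_mul]
      rwa [h6] at h5

lemma mem_PC {𝔣 : Ideal (𝓞 K)} (hbot : 𝔣 ≠ ⊥) (htop : 𝔣 ≠ ⊤) (hT : ∀ x : 𝓞 K, TPos K x)
    {ψ : Ideal (𝓞 K) →*₀ ℂ} : ψ ∈ PC 𝔣 ↔ IsPrimChar K 𝔣 ψ := by
  unfold PC
  rw [dif_pos (prim_card hbot htop hT).1, Set.Finite.mem_toFinset]
  rfl

/-- the image of the primitive characters -/
lemma mem_image {𝔣 : Ideal (𝓞 K)} (hbot : 𝔣 ≠ ⊥) (htop : 𝔣 ≠ ⊤) (hT : ∀ x : 𝓞 K, TPos K x)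
    {F : Mq 𝔣 →* ℂˣ} (hF : F ∈ D1 htop) :
    (∃ ψ, IsPrimChar K 𝔣 ψ ∧ tM 𝔣 ψ = F) ↔
      ∀ 𝔭 : Ideal (𝓞 K), Prime 𝔭 → ∀ 𝔤, 𝔭 * 𝔤 = 𝔣 → F ∉ DE htop 𝔤 := by
  constructor
  · rintro ⟨ψ, hψ, rfl⟩ 𝔭 hp 𝔤 hg hF'
    have hfam : ψ ∈ Fam 𝔣 := ⟨𝔣, dvd_refl _, htop, hψ⟩
    obtain ⟨x, hx1, -, hx2, hx3⟩ := hψ.prim 𝔤 ⟨𝔭, by rw [← hg, mul_comm]⟩ (by
      rintro rfl
      have h1 : 𝔭 * 𝔤 = 1 * 𝔤 := by rw [one_mul]; exact hg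
      have h2 := mul_right_cancel₀ hbot h1
      exact hp.not_isUnit (h2 ▸ isUnit_one))
    apply hx3
    have h3 := hF'.2 x hx2 hx1
    rw [← tM_coe htop hfam ⟨Ideal.span {x}, hx2⟩, h3, Units.val_one]
  · intro h
    obtain ⟨𝔭, hp, hpd⟩ := WfDvdMonoid.exists_irreducible_factor (a := 𝔣)
      (by rw [Ideal.isUnit_iff]; exact htop) hbot
    rcases exists_prim hbot htop F hF with h1 | ⟨𝔢, ψ, h3, h4, h5, h6⟩
    · exfalso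
      obtain ⟨𝔤, hg⟩ := hpd
      exact h 𝔭 hp.prime 𝔤 hg.symm ⟨hF, fun x hx _ => h1 x hx⟩
    · by_cases he : 𝔢 = 𝔣
      · subst he
        refine ⟨ψ, h5 hT, ?_⟩
        ext x
        rw [tM_coe htop ⟨𝔢, dvd_refl _, htop, h5 hT⟩, h6]
      · exfalso
        obtain ⟨𝔟, hb⟩ := h3
        have hb1 : ¬ IsUnit 𝔟 := by
          intro hu
          rw [Ideal.isUnit_iff] at hu
          apply he
          rw [hb, hu, Ideal.mul_top]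
        have hb0 : 𝔟 ≠ 0 := by
          rintro rfl
          exact hbot (by rw [hb, mul_zero]; rfl)
        obtain ⟨𝔯, hr, 𝔠, hc⟩ := WfDvdMonoid.exists_irreducible_factor hb1 hb0
        refine h 𝔯 hr.prime (𝔢 * 𝔠) (by rw [hb, hc]; ring) ⟨hF, fun x hx hx1 => ?_⟩
        have h7 : x - 1 ∈ 𝔢 := Ideal.mul_le_left hx1
        have h8 := (h5 hT).ray x (ne_zero_of_cop htop hx) h7 (hT x)
        apply Units.ext
        rw [← h6 ⟨Ideal.span {x}, hx⟩, Units.val_one]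
        exact h8

/-- the restriction to the ideals prime to `𝔣` -/
def res {𝔣 𝔢 : Ideal (𝓞 K)} (h : 𝔣 ≤ 𝔢) (G : Mq 𝔢 →* ℂˣ) : Mq 𝔣 →* ℂˣ :=
  G.comp (Submonoid.inclusion (show Mq 𝔣 ≤ Mq 𝔢 from fun _ h1 => cop_mono h h1))

lemma res_apply {𝔣 𝔢 : Ideal (𝓞 K)} (h : 𝔣 ≤ 𝔢) (G : Mq 𝔢 →* ℂˣ) (x : Mq 𝔣) :
    res h G x = G ⟨(x : Ideal (𝓞 K)), cop_mono h (Mq_cop x)⟩ := rfl

lemma res_mem {𝔣 𝔢 : Ideal (𝓞 K)} (h : 𝔣 ≤ 𝔢) (htop : 𝔣 ≠ ⊤) (he : 𝔢 ≠ ⊤) {G : Mq 𝔢 →* ℂˣ}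
    (hG : G ∈ D1 he) : res h G ∈ DE htop 𝔢 := by
  constructor
  · intro x
    rw [res_apply]
    exact hG ⟨(x : 𝓞 K), h x.2⟩
  · intro x hx h1
    rw [res_apply]
    exact hG ⟨x, h1⟩

/-- the order of `D(𝔢)` -/
lemma DE_card {𝔣 𝔢 : Ideal (𝓞 K)} (hbot : 𝔣 ≠ ⊥) (htop : 𝔣 ≠ ⊤) (hT : ∀ x : 𝓞 K, TPos K x)
    (h : 𝔣 ≤ 𝔢) : (Nat.card (DE htop 𝔢) : ℝ) ≤ Nat.card (ClassGroup (𝓞 K)) * nm 𝔢 := by
  have := DE_finite hbot htop 𝔢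
  have he0 : 𝔢 ≠ ⊥ := by
    rintro rfl
    exact hbot (le_bot_iff.mp h)
  by_cases he : 𝔢 = ⊤
  · subst he
    have h1 : ((DE htop (⊤ : Ideal (𝓞 K)) : Subgroup (Mq 𝔣 →* ℂˣ)) : Set (Mq 𝔣 →* ℂˣ)) ⊆ D0 𝔣 :=
      fun F hF x hx => hF.2 x hx Submodule.mem_top
    have h2 : Nat.card (DE htop (⊤ : Ideal (𝓞 K))) ≤ Nat.card (ClassGroup (𝓞 K)) := by
      refine le_trans ?_ (D0_card htop hT)
      exact Set.ncard_le_ncard h1 ((D1_card hbot htop).1.subset (D0_sub htop))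
    have h3 : nm (⊤ : Ideal (𝓞 K)) = 1 := by
      unfold nm
      rw [Ideal.absNorm_top, Nat.cast_one]
    rw [h3, mul_one]
    exact_mod_cast h2
  · have h1 : ∀ F : DE htop 𝔢, ∃ F' : Mq 𝔢 →* ℂˣ, F' ∈ D1 he ∧ res h F' = F := by
      intro F
      obtain ⟨F', hF'⟩ := exists_ext h htop he (F : Mq 𝔣 →* ℂˣ) F.2.1 F.2.2
      refine ⟨F', fun x => ?_, ?_⟩
      · have h2 := hF' (1, x)
        have h3 : pi2 h he (1, x) = pi1 he x := by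
          apply Subtype.ext
          rw [pi2_coe, Submonoid.coe_one, one_mul, pi1_coe]
        rw [h3, map_one] at h2
        exact h2
      · refine MonoidHom.ext fun x => ?_
        rw [res_apply, ← hF' (x, 1)]
        congr 1
        apply Subtype.ext
        rw [pi2_coe, Submonoid.coe_one, Ideal.span_singleton_one, ← Ideal.one_eq_top, mul_one]
    choose E hE1 hE2 using h1
    have hinj : Function.Injective E := by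
      intro F F' hFF
      apply Subtype.ext
      rw [← hE2 F, ← hE2 F', hFF]
    have hfin := (D1_card he0 he).1
    have h2 : Nat.card (DE htop 𝔢) ≤ (D1 he).ncard := by
      rw [← Set.ncard_univ]
      refine Set.ncard_le_ncard_of_injOn E (fun F _ => hE1 F) hinj.injOn hfin
    have h3 : Nat.card (DE htop 𝔢) ≤ Ideal.absNorm 𝔢 * Nat.card (ClassGroup (𝓞 K)) := by
      refine h2.trans ?_
      rw [(D1_card he0 he).2]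
      exact (cls_card_le he0 he).2.trans (Nat.mul_le_mul_right _ (card_units_le_norm he0))
    have h4 : (Nat.card (DE htop 𝔢) : ℝ) ≤ ((Ideal.absNorm 𝔢 * Nat.card (ClassGroup (𝓞 K)) : ℕ) : ℝ) := by
      exact_mod_cast h3
    refine h4.trans (le_of_eq ?_)
    unfold nm
    push_cast
    ring

/-- ideals which are not separated by `D(𝔢)` -/
lemma rel_of_agree {𝔣 𝔢 : Ideal (𝓞 K)} (hbot : 𝔣 ≠ ⊥) (htop : 𝔣 ≠ ⊤) (h : 𝔣 ≤ 𝔢) (u v : Mq 𝔣)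
    (hag : ∀ F ∈ DE htop 𝔢, F u = F v) : Rel 𝔢 (u : Ideal (𝓞 K)) (v : Ideal (𝓞 K)) := by
  have he0 : 𝔢 ≠ ⊥ := by
    rintro rfl
    exact hbot (le_bot_iff.mp h)
  by_cases he : 𝔢 = ⊤
  · subst he
    let j : Mq 𝔣 →* nonZeroDivisors (Ideal (𝓞 K)) :=
      { toFun := fun x => ⟨(x : Ideal (𝓞 K)),
          mem_nonZeroDivisors_iff_ne_zero.mpr (Mq_ne_bot htop x)⟩
        map_one' := rfl
        map_mul' := fun _ _ => rfl }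
    have h1 : ClassGroup.mk0 (j u) = ClassGroup.mk0 (j v) := by
      apply sep_pts
      intro χ
      refine hag ((χ.comp ClassGroup.mk0).comp j) ⟨fun x => ?_, fun x hx _ => ?_⟩
      · change χ (ClassGroup.mk0 (j (pi1 htop x))) = 1
        have : ClassGroup.mk0 (j (pi1 htop x)) = 1 := by
          rw [ClassGroup.mk0_eq_one_iff]
          exact ⟨(x : 𝓞 K), rfl⟩
        rw [this, map_one]
      · change χ (ClassGroup.mk0 (j ⟨Ideal.span {x}, hx⟩)) = 1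
        have : ClassGroup.mk0 (j ⟨Ideal.span {x}, hx⟩) = 1 := by
          rw [ClassGroup.mk0_eq_one_iff]
          exact ⟨x, rfl⟩
        rw [this, map_one]
    rw [ClassGroup.mk0_eq_mk0_iff] at h1
    obtain ⟨x, y, hx, hy, hxy⟩ := h1
    refine ⟨x, y, hx, hy, Submodule.mem_top, Submodule.mem_top, ?_⟩
    rw [mul_comm _ (Ideal.span {x}), mul_comm _ (Ideal.span {y})]
    exact hxy
  · have hfin := (cls_card_le he0 he).1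
    have := Mq_cancel he
    obtain ⟨u', hu'⟩ : ∃ u' : Mq 𝔢, u' = ⟨(u : Ideal (𝓞 K)), cop_mono h (Mq_cop u)⟩ := ⟨_, rfl⟩
    obtain ⟨v', hv'⟩ : ∃ v' : Mq 𝔢, v' = ⟨(v : Ideal (𝓞 K)), cop_mono h (Mq_cop v)⟩ := ⟨_, rfl⟩
    have h1 : cls (pi1 he) u' = cls (pi1 he) v' := by
      apply sep_pts
      intro χ
      have h2 := hag (res h (χ.comp (cls (pi1 he)))) (res_mem h htop he (fun x => by
        rw [MonoidHom.comp_apply, cls_pi, map_one]))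
      rw [res_apply, res_apply, ← hu', ← hv'] at h2
      exact h2
    obtain ⟨a, b, hab⟩ := cls_eq h1
    have h2 := congrArg Subtype.val hab
    rw [Submonoid.coe_mul, Submonoid.coe_mul, pi1_coe, pi1_coe, hu', hv'] at h2
    refine ⟨(a : 𝓞 K), (b : 𝓞 K), ne_zero_of_cop he (T1_cop a), ne_zero_of_cop he (T1_cop b),
      a.2, b.2, ?_⟩
    rw [mul_comm _ (Ideal.span {(a : 𝓞 K)}), mul_comm _ (Ideal.span {(b : 𝓞 K)})]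
    exact h2

open Classical in
/-- the sum over `D(𝔢)` -/
lemma sum_DE {𝔣 𝔢 : Ideal (𝓞 K)} (hbot : 𝔣 ≠ ⊥) (htop : 𝔣 ≠ ⊤) (hT : ∀ x : 𝓞 K, TPos K x)
    (h : 𝔣 ≤ 𝔢) (u v : Mq 𝔣) (X : Finset (Mq 𝔣 →* ℂˣ)) (hX : ∀ F, F ∈ X ↔ F ∈ D1 htop) :
    ‖∑ F ∈ X, (if F ∈ DE htop 𝔢 then (1 : ℂ) else 0) *
      (((F u : ℂˣ) : ℂ) * (starRingEnd ℂ) ((F v : ℂˣ) : ℂ))‖ ≤
      Nat.card (ClassGroup (𝓞 K)) *
        (if Rel 𝔢 (u : Ideal (𝓞 K)) (v : Ideal (𝓞 K)) then nm 𝔢 else 0) := by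
  have := DE_finite hbot htop 𝔢
  have := Fintype.ofFinite (DE htop 𝔢)
  have e1 : ∑ F ∈ X, (if F ∈ DE htop 𝔢 then (1 : ℂ) else 0) *
      (((F u : ℂˣ) : ℂ) * (starRingEnd ℂ) ((F v : ℂˣ) : ℂ)) =
      ∑ F : DE htop 𝔢, (((F : Mq 𝔣 →* ℂˣ) u : ℂˣ) : ℂ) *
        (starRingEnd ℂ) (((F : Mq 𝔣 →* ℂˣ) v : ℂˣ) : ℂ) := by
    simp only [ite_mul, one_mul, zero_mul]
    rw [← Finset.sum_filter]
    refine (Finset.sum_subtype _ ?_ (fun F : Mq 𝔣 →* ℂˣ => ((F u : ℂˣ) : ℂ) *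
      (starRingEnd ℂ) ((F v : ℂˣ) : ℂ)))
    intro F
    rw [Finset.mem_filter, hX]
    exact ⟨fun h => h.2, fun h => ⟨h.1, h⟩⟩
  rw [e1]
  by_cases hag : ∀ F ∈ DE htop 𝔢, F u = F v
  · rw [if_pos (rel_of_agree hbot htop h u v hag)]
    exact (orth_le (DE htop 𝔢) u v).trans (DE_card hbot htop hT h)
  · push Not at hag
    obtain ⟨F0, h0, h1⟩ := hag
    rw [orth_zero (DE htop 𝔢) u v ⟨F0, h0⟩ h1, norm_zero]
    refine mul_nonneg (Nat.cast_nonneg _) ?_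
    split_ifs
    · exact Nat.cast_nonneg _
    · exact le_rfl

end

lemma prod_inj {K : Type} [Field K] [NumberField K] {T T' : Finset (Ideal (𝓞 K))}
    (hT : ∀ 𝔭 ∈ T, Prime 𝔭) (hT' : ∀ 𝔭 ∈ T', Prime 𝔭) (h : ∏ 𝔭 ∈ T, 𝔭 = ∏ 𝔭 ∈ T', 𝔭) :
    T ⊆ T' := by
  intro 𝔭 hp
  have h1 : 𝔭 ∣ ∏ 𝔭 ∈ T', 𝔭 := h ▸ Finset.dvd_prod_of_mem _ hp
  obtain ⟨𝔮, hq, hd⟩ := (hT 𝔭 hp).exists_mem_finset_dvd h1
  have h2 := ((hT 𝔭 hp).dvd_prime_iff_associated (hT' 𝔮 hq)).1 hd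
  rw [associated_iff_eq] at h2
  exact h2 ▸ hq

open Classical in
theorem t_ort : St_ORT := by
  intro K _ _ _ 𝔣 𝔲 𝔳 hbot htop hu hv
  have hT : ∀ x : 𝓞 K, TPos K x := tpos_all
  obtain ⟨u, hu'⟩ : ∃ u : Mq 𝔣, u = ⟨𝔲, hu⟩ := ⟨_, rfl⟩
  obtain ⟨v, hv'⟩ : ∃ v : Mq 𝔣, v = ⟨𝔳, hv⟩ := ⟨_, rfl⟩
  have hu2 : (u : Ideal (𝓞 K)) = 𝔲 := by rw [hu']
  have hv2 : (v : Ideal (𝓞 K)) = 𝔳 := by rw [hv']
  obtain ⟨X, hXd⟩ : ∃ X, X = (D1_card hbot htop).1.toFinset := ⟨_, rfl⟩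
  have hX : ∀ F, F ∈ X ↔ F ∈ D1 htop := fun F => by rw [hXd, Set.Finite.mem_toFinset]
  obtain ⟨P, hPd⟩ : ∃ P, P = (dvs 𝔣).filter (fun 𝔭 => Prime 𝔭) := ⟨_, rfl⟩
  have hP : ∀ 𝔭, 𝔭 ∈ P ↔ 𝔭 ∣ 𝔣 ∧ Prime 𝔭 := fun 𝔭 => by
    rw [hPd, Finset.mem_filter, mem_dvs hbot]
  have hq : ∀ 𝔭 : Ideal (𝓞 K), ∃ 𝔤, 𝔭 ∣ 𝔣 → 𝔭 * 𝔤 = 𝔣 := by
    intro 𝔭
    by_cases h : 𝔭 ∣ 𝔣
    · obtain ⟨𝔤, hg⟩ := h
      exact ⟨𝔤, fun _ => hg.symm⟩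
    · exact ⟨⊤, fun h' => absurd h' h⟩
  choose q hq using hq
  have hGe : ∀ T : Finset (Ideal (𝓞 K)), ∃ 𝔤, T ⊆ P → (∏ 𝔭 ∈ T, 𝔭) * 𝔤 = 𝔣 := by
    intro T
    by_cases h : T ⊆ P
    · obtain ⟨𝔤, hg⟩ := Finset.prod_primes_dvd (s := T) 𝔣 (fun 𝔭 hp => ((hP 𝔭).1 (h hp)).2)
        (fun 𝔭 hp => ((hP 𝔭).1 (h hp)).1)
      exact ⟨𝔤, fun _ => hg.symm⟩
    · exact ⟨⊤, fun h' => absurd h' h⟩
  choose G hG using hGe
  obtain ⟨a, ha⟩ : ∃ a : (Mq 𝔣 →* ℂˣ) → ℂ, ∀ F, a F = ((F u : ℂˣ) : ℂ) *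
    (starRingEnd ℂ) ((F v : ℂˣ) : ℂ) := ⟨_, fun _ => rfl⟩
  -- the sum over the primitive characters
  have e1 : WW 𝔣 𝔲 𝔳 = ∑ F ∈ X, (∏ 𝔭 ∈ P, (1 + -(if F ∈ DE htop (q 𝔭) then (1 : ℂ) else 0))) * a F := by
    have e2 : ∀ F ∈ X, (∏ 𝔭 ∈ P, (1 + -(if F ∈ DE htop (q 𝔭) then (1 : ℂ) else 0))) * a F =
        if ∀ 𝔭 ∈ P, F ∉ DE htop (q 𝔭) then a F else 0 := by
      intro F _
      split_ifs with h
      · rw [Finset.prod_eq_one, one_mul]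
        intro 𝔭 hp
        rw [if_neg (h 𝔭 hp), neg_zero, add_zero]
      · push Not at h
        obtain ⟨𝔭, hp, h1⟩ := h
        rw [Finset.prod_eq_zero hp, zero_mul]
        rw [if_pos h1, add_neg_cancel]
    rw [Finset.sum_congr rfl e2, ← Finset.sum_filter]
    have e3 : X.filter (fun F => ∀ 𝔭 ∈ P, F ∉ DE htop (q 𝔭)) = (PC 𝔣).image (tM 𝔣) := by
      ext F
      rw [Finset.mem_filter, Finset.mem_image, hX]
      constructor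
      · rintro ⟨h1, h2⟩
        obtain ⟨ψ, hψ, h3⟩ := (mem_image hbot htop hT h1).2 (fun 𝔭 hp 𝔤 hg => by
          have hpd : 𝔭 ∣ 𝔣 := ⟨𝔤, hg.symm⟩
          have h4 := h2 𝔭 ((hP 𝔭).2 ⟨hpd, hp⟩)
          have h5 : 𝔤 = q 𝔭 := mul_left_cancel₀ hp.ne_zero (hg.trans (hq 𝔭 hpd).symm)
          rw [h5]
          exact h4)
        exact ⟨ψ, (mem_PC hbot htop hT).2 hψ, h3⟩
      · rintro ⟨ψ, hψ, rfl⟩
        have hψ' := (mem_PC hbot htop hT).1 hψ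
        have h1 : tM 𝔣 ψ ∈ D1 htop := tM_mem htop hT ⟨𝔣, dvd_refl _, htop, hψ'⟩
        refine ⟨h1, fun 𝔭 hp => ?_⟩
        exact (mem_image hbot htop hT h1).1 ⟨ψ, hψ', rfl⟩ 𝔭 ((hP 𝔭).1 hp).2 (q 𝔭)
          (hq 𝔭 ((hP 𝔭).1 hp).1)
    rw [e3, Finset.sum_image]
    · unfold WW
      refine Finset.sum_congr rfl fun ψ hψ => ?_
      have hfam : ψ ∈ Fam 𝔣 := ⟨𝔣, dvd_refl _, htop, (mem_PC hbot htop hT).1 hψ⟩
      rw [ha, tM_coe htop hfam, tM_coe htop hfam, hu2, hv2]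
    · intro ψ hψ ψ' hψ' h
      exact tM_inj hbot htop hT ⟨𝔣, dvd_refl _, htop, (mem_PC hbot htop hT).1 hψ⟩
        ⟨𝔣, dvd_refl _, htop, (mem_PC hbot htop hT).1 hψ'⟩ h
  -- inclusion-exclusion
  have e4 : WW 𝔣 𝔲 𝔳 = ∑ T ∈ P.powerset, (-1 : ℂ) ^ T.card *
      ∑ F ∈ X, (if F ∈ DE htop (G T) then (1 : ℂ) else 0) * a F := by
    rw [e1]
    simp only [Finset.mul_sum]
    rw [Finset.sum_comm]
    refine Finset.sum_congr rfl fun F hF => ?_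
    rw [Finset.prod_one_add, Finset.sum_mul]
    refine Finset.sum_congr rfl fun T hT' => ?_
    rw [Finset.mem_powerset] at hT'
    have hTp : ∀ 𝔭 ∈ T, Prime 𝔭 := fun 𝔭 hp => ((hP 𝔭).1 (hT' hp)).2
    rw [Finset.prod_neg, mul_assoc]
    congr 2
    have h1 := DE_inter hbot htop ((hX F).1 hF) T hTp (G T) (hG T hT')
    split_ifs with h2
    · apply Finset.prod_eq_one
      intro 𝔭 hp
      rw [if_pos (h1.1 h2 𝔭 hp (q 𝔭) (hq 𝔭 ((hP 𝔭).1 (hT' hp)).1))]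
    · have h3 : ∃ 𝔭 ∈ T, F ∉ DE htop (q 𝔭) := by
        by_contra hcon
        push Not at hcon
        apply h2
        rw [h1]
        intro 𝔭 hp 𝔤' hg'
        have h5 : 𝔤' = q 𝔭 := mul_left_cancel₀ (hTp 𝔭 hp).ne_zero
          (hg'.trans (hq 𝔭 ((hP 𝔭).1 (hT' hp)).1).symm)
        rw [h5]
        exact hcon 𝔭 hp
      obtain ⟨𝔭, hp, h4⟩ := h3
      apply Finset.prod_eq_zero hp
      rw [if_neg h4]
  have hGinj : Set.InjOn G (P.powerset : Set (Finset (Ideal (𝓞 K)))) := by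
    intro T hT1 T' hT2 h
    rw [Finset.mem_coe, Finset.mem_powerset] at hT1 hT2
    have h1 := hG T hT1
    have h2 := hG T' hT2
    have h3 : G T' ≠ 0 := by
      intro h0
      rw [h0, mul_zero] at h2
      exact hbot h2.symm
    rw [h] at h1
    have h4 := mul_right_cancel₀ h3 (h1.trans h2.symm)
    exact Finset.Subset.antisymm
      (prod_inj (fun 𝔭 hp => ((hP 𝔭).1 (hT1 hp)).2) (fun 𝔭 hp => ((hP 𝔭).1 (hT2 hp)).2) h4)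
      (prod_inj (fun 𝔭 hp => ((hP 𝔭).1 (hT2 hp)).2) (fun 𝔭 hp => ((hP 𝔭).1 (hT1 hp)).2) h4.symm)
  have hbound : ∀ 𝔢, 0 ≤ (if Rel 𝔢 𝔲 𝔳 then nm 𝔢 else 0) := by
    intro 𝔢
    split_ifs
    · exact Nat.cast_nonneg _
    · exact le_rfl
  rw [e4]
  calc _ ≤ ∑ T ∈ P.powerset, ‖(-1 : ℂ) ^ T.card *
        ∑ F ∈ X, (if F ∈ DE htop (G T) then (1 : ℂ) else 0) * a F‖ := norm_sum_le _ _
    _ ≤ ∑ T ∈ P.powerset, Nat.card (ClassGroup (𝓞 K)) * (if Rel (G T) 𝔲 𝔳 then nm (G T) else 0) := by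
        refine Finset.sum_le_sum fun T hT' => ?_
        rw [Finset.mem_powerset] at hT'
        rw [norm_mul, norm_pow, norm_neg, norm_one, one_pow, one_mul]
        have h1 : 𝔣 ≤ G T := by
          conv_lhs => rw [← hG T hT']
          exact Ideal.mul_le_right
        have h2 := sum_DE hbot htop hT h1 u v X hX
        rw [hu2, hv2] at h2
        simp only [ha]
        exact h2
    _ = ∑ 𝔢 ∈ P.powerset.image G, Nat.card (ClassGroup (𝓞 K)) * (if Rel 𝔢 𝔲 𝔳 then nm 𝔢 else 0) := by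
        rw [Finset.sum_image hGinj]
    _ ≤ ∑ 𝔢 ∈ dvs 𝔣, Nat.card (ClassGroup (𝓞 K)) * (if Rel 𝔢 𝔲 𝔳 then nm 𝔢 else 0) := by
        refine Finset.sum_le_sum_of_subset_of_nonneg ?_ (fun 𝔢 _ _ =>
          mul_nonneg (Nat.cast_nonneg _) (hbound 𝔢))
        intro 𝔢 he
        obtain ⟨T, hT', rfl⟩ := Finset.mem_image.mp he
        rw [Finset.mem_powerset] at hT'
        rw [mem_dvs hbot]
        exact ⟨_, by rw [mul_comm]; exact (hG T hT').symm⟩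
    _ = _ := by rw [Finset.mul_sum]

end Pool.Agent.Y960.NV
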